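import Mathlib

set_option autoImplicit false

namespace Pool.Agent.Results.MP_f7d7fe_co.All

open Set Function

/-- the lattice translate `v + L` -/
def tr {d : ℕ} (v : Fin d → ℤ) (L : AddSubgroup (Fin d → ℤ)) : Set (Fin d → ℤ) := {x | x - v ∈ L}

/-- lattice tiling of `ℤ^d` by `n` lattice translates -/
def IsTiling {d n : ℕ} (v : Fin n → Fin d → ℤ) (L : Fin n → AddSubgroup (Fin d → ℤ)) : Prop :=
  (∀ i, (L i).FiniteIndex) ∧ (Pairwise fun i j => Disjoint (tr (v i) (L i)) (tr (v j) (L j))) ∧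
    ⋃ i, tr (v i) (L i) = univ

/-- the tiling splits: `b` gives the partition of the index set into `k` nonempty blocks -/
def Splits {d n : ℕ} (v : Fin n → Fin d → ℤ) (L : Fin n → AddSubgroup (Fin d → ℤ)) : Prop :=
  ∃ (k : ℕ) (b : Fin n → Fin k), 2 ≤ k ∧ Surjective b ∧ (∃ i j, i ≠ j ∧ b i = b j) ∧
    ∀ c, ∃ (w : Fin d → ℤ) (M : AddSubgroup (Fin d → ℤ)), M.FiniteIndex ∧
      ⋃ i ∈ {i | b i = c}, tr (v i) (L i) = tr w M

def Cl {G : Type} [AddCommGroup G] (P : G → Prop) : Prop :=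
  ∀ x y z, P x → P y → P z → P (x - y + z)

def Good {G ι : Type} [AddCommGroup G] (f : G → ι) : Prop :=
  Surjective f ∧ (∀ i, Cl fun x => f x = i) ∧
    ∀ I : Set ι, (Cl fun x => f x ∈ I) → I = univ ∨ I.Subsingleton

def Pair {G ι : Type} [AddCommGroup G] (f : G → ι) : Prop :=
  ∃ (i j : ι) (h : G → Bool), i ≠ j ∧ (∃ k, k ≠ i ∧ k ≠ j) ∧
    (∀ b, Cl fun x => (f x = i ∨ f x = j) ∧ h x = b) ∧
      ∀ b, (∃ x, f x = i ∧ h x = b) ∧ ∃ x, f x = j ∧ h x = b

lemma z2 : ∀ s : ZMod 2, s = 0 ∨ s = 1 := by decide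

lemma step {G ι : Type} [AddCommGroup G] {f : G → ι} (g : Good f) (p : Pair f) :
    ∃ F : G × ZMod 2 → ι ⊕ Bool, Good F ∧ Pair F := by
  classical
  obtain ⟨g1, g2, g3⟩ := g
  obtain ⟨i, j, h, ij, ⟨k, k1, k2⟩, c, e⟩ := p
  set F : G × ZMod 2 → ι ⊕ Bool := fun x =>
    if x.2 = 1 ∧ (f x.1 = i ∨ f x.1 = j) then .inr (h x.1) else .inl (f x.1) with hF
  have F0 : ∀ x, F (x, 0) = .inl (f x) := fun x => if_neg (by simp)
  have F1 : ∀ x, f x = i ∨ f x = j → F (x, 1) = .inr (h x) := fun x a => if_pos ⟨rfl, a⟩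
  have F2 : ∀ x s, ¬ (f x = i ∨ f x = j) → F (x, s) = .inl (f x) := fun x s a => if_neg (by tauto)
  have Fl : ∀ x a, F x = .inl a ↔ f x.1 = a ∧ ((a = i ∨ a = j) → x.2 = 0) := fun x a => by
    rcases z2 x.2 with s | s <;> by_cases t : f x.1 = i ∨ f x.1 = j <;> simp [hF, s, t]
    · rintro rfl; tauto
    · rintro rfl; tauto
  refine ⟨F, ⟨?_, ?_, fun I hI => ?_⟩, .inl i, .inl j, fun x => h x.1, by simpa,
    ⟨.inl k, by simpa, by simpa⟩, fun b x y z => ?_, fun b => ?_⟩
  · rintro (a | b)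
    · obtain ⟨x, rfl⟩ := g1 a
      exact ⟨_, F0 x⟩
    · obtain ⟨x, h1, rfl⟩ := (e b).1
      exact ⟨_, F1 x (Or.inl h1)⟩
  · rintro (a | b) x y z
    · simp only [Fl]
      exact fun h1 h2 h3 => ⟨g2 a _ _ _ h1.1 h2.1 h3.1, fun t => by simp [h1.2 t, h2.2 t, h3.2 t]⟩
    · have : ∀ x, F x = .inr b ↔ x.2 = 1 ∧ (f x.1 = i ∨ f x.1 = j) ∧ h x.1 = b := fun x => by
        simp only [hF]; split_ifs with t <;> simp <;> tauto
      simp only [this]
      exact fun h1 h2 h3 => ⟨by simp [h1.1, h2.1, h3.1], c b _ _ _ h1.2 h2.2 h3.2⟩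
  · have sl : ∀ x y z s t, F (x, s) ∈ I → F (y, t) ∈ I → F (z, t) ∈ I → F (x - y + z, s) ∈ I :=
      fun x y z s t a b c => by simpa using hI _ _ _ a b c
    have k0 : ∀ b, .inr b ∈ I → ∀ a, .inl a ∈ I → I = univ := fun b hb a ha => by
      obtain ⟨⟨x, x1, x2⟩, y, y1, y2⟩ := e b
      have hx : F (x, 1) ∈ I := by rwa [F1 x (Or.inl x1), x2]
      have hy : F (y, 1) ∈ I := by rwa [F1 y (Or.inr y1), y2]
      obtain ⟨w, rfl⟩ := g1 a
      rcases g3 {a | .inl a ∈ I} (fun x y z a b c => by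
        have := sl x y z 0 0 (F0 x ▸ a) (F0 y ▸ b) (F0 z ▸ c)
        rwa [F0] at this) with u | u
      · have u : ∀ x, F (x, 0) ∈ I := fun x => by rw [F0]; exact eq_univ_iff_forall.1 u (f x)
        refine eq_univ_of_forall ?_
        rintro (a | b)
        · exact eq_univ_iff_forall.1 ‹_› a
        · obtain ⟨z, z1, rfl⟩ := (e b).1
          simpa [F1 z (Or.inl z1)] using sl x x z 1 0 hx (u x) (u z)
      · exfalso
        by_cases t : f w = i ∨ f w = j
        · rcases t with t | t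
          · have := sl x x y 0 1 (by rwa [F0, x1, ← t]) hx hy
            rw [sub_self, zero_add, F0] at this
            exact ij (by rw [← t, ← y1]; exact u ha this)
          · have := sl y y x 0 1 (by rwa [F0, y1, ← t]) hy hx
            rw [sub_self, zero_add, F0] at this
            exact ij (by rw [← t, ← x1]; exact u this ha)
        · have := sl w w x 0 1 (F0 w ▸ ha) (F2 w 1 t ▸ ha) hx
          rw [sub_self, zero_add, F0] at this
          exact t (Or.inl (x1 ▸ u ha this))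
    by_cases t : ∃ b, .inr b ∈ I
    · obtain ⟨b, hb⟩ := t
      by_cases u : ∃ a, .inl a ∈ I
      · exact Or.inl (u.elim (k0 b hb))
      push Not at u
      refine Or.inr ?_
      rintro (a | a) ha (a' | a') ha'
      exacts [(u a ha).elim, (u a ha).elim, (u a' ha').elim, by
        by_contra ne
        have al : ∀ b, .inr b ∈ I := fun b => by
          have : b = a ∨ b = a' := by revert ne; cases a <;> cases a' <;> cases b <;> simp
          rcases this with rfl | rfl <;> assumption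
        rcases g3 {i, j} (fun x y z a b c => by
          have := sl x y z 1 1 (F1 x a ▸ al _) (F1 y b ▸ al _) (F1 z c ▸ al _)
          by_contra n
          exact u _ (F2 _ 1 n ▸ this)) with v | v
        · exact (eq_univ_iff_forall.1 v k).elim k1 k2
        · exact ij (v (Or.inl rfl) (Or.inr rfl))]
    · push Not at t
      rcases g3 {a | .inl a ∈ I} (fun x y z a b c => by
        have := sl x y z 0 0 (F0 x ▸ a) (F0 y ▸ b) (F0 z ▸ c)
        rwa [F0] at this) with u | u
      · obtain ⟨w, rfl⟩ := g1 k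
        obtain ⟨x, x1, -⟩ := (e true).1
        have u := eq_univ_iff_forall.1 u
        have := sl w w x 1 0 (F2 w 1 (by tauto) ▸ u _) (F0 w ▸ u _) (F0 x ▸ u _)
        rw [sub_self, zero_add, F1 x (Or.inl x1)] at this
        exact (t _ this).elim
      · refine Or.inr ?_
        rintro (a | a) ha (a' | a') ha'
        exacts [by rw [u ha ha'], (t _ ha').elim, (t _ ha).elim, (t _ ha).elim]
  · simp only [Fl, true_or, or_true, forall_const]
    intro h1 h2 h3
    have := c b x.1 y.1 z.1 (by tauto) (by tauto) (by tauto)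
    have s : (x - y + z).2 = 0 := by
      simp [show x.2 = 0 by tauto, show y.2 = 0 by tauto, show z.2 = 0 by tauto]
    exact ⟨this.1.imp (fun a => ⟨a, s⟩) fun a => ⟨a, s⟩, this.2⟩
  · obtain ⟨⟨x, x1, x2⟩, y, y1, y2⟩ := e b
    exact ⟨⟨(x, 0), by rw [F0, x1], x2⟩, (y, 0), by rw [F0, y1], y2⟩

def Ex (n : ℕ) (P : Prop) : Prop := ∃ (G ι : Type) (_ : AddCommGroup G) (_ : Finite G)
  (_ : Fintype ι) (f : G → ι), Fintype.card ι = n ∧ Good f ∧ (P → Pair f)

lemma Ex.step {n : ℕ} (h : Ex n True) : Ex (n + 2) True := by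
  obtain ⟨G, ι, _, _, _, f, h1, h2, h3⟩ := h
  obtain ⟨F, a, b⟩ := All.step h2 (h3 trivial)
  exact ⟨_, _, _, inferInstance, inferInstance, F, by simp [h1], a, fun _ => b⟩

lemma good {G ι : Type} [AddCommGroup G] [Fintype ι] [DecidableEq ι] {f : G → ι}
    (h1 : ∀ i, ∃ x, f x = i) (h2 : ∀ x y z, f x = f y → f y = f z → f (x - y + z) = f x)
    (h3 : ∀ I : Finset ι, (∀ x, f x ∈ I → ∀ y, f y ∈ I → ∀ z, f z ∈ I → f (x - y + z) ∈ I) →
      I = Finset.univ ∨ I.card ≤ 1) : Good f := by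
  classical
  refine ⟨h1, fun i x y z a b c => (h2 x y z (a.trans b.symm) (b.trans c.symm)).trans a,
    fun I hI => (h3 I.toFinset fun x a y b z c => by
      simp only [mem_toFinset] at *; exact hI x y z a b c).imp (by simp) fun h => ?_⟩
  simpa using Finset.card_le_one_iff_subsingleton.1 h

def f4 (x : ZMod 2 × ZMod 2 × ZMod 2) : Fin 4 :=
  ![0, 1, 3, 3, 2, 1, 2, 0] (Fin.ofNat 8 (x.1.val + 2 * x.2.1.val + 4 * x.2.2.val))

def f7 (x : ZMod 2 × ZMod 2 × ZMod 2 × ZMod 2) : Fin 7 :=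
  ![0, 0, 1, 1, 0, 0, 2, 3, 4, 5, 4, 6, 6, 3, 2, 5]
    (Fin.ofNat 16 (x.1.val + 2 * x.2.1.val + 4 * x.2.2.1.val + 8 * x.2.2.2.val))

lemma e4 : Ex 4 True := ⟨_, _, _, inferInstance, inferInstance, f4, rfl,
  good (by decide +kernel) (by decide +kernel) (by decide +kernel),
  fun _ => ⟨0, 1, fun x => x.2.2 = 1, by decide, by decide, by unfold Cl; decide +kernel,
    by decide +kernel⟩⟩

lemma e7 : Ex 7 True := ⟨_, _, _, inferInstance, inferInstance, f7, rfl,
  good (by decide +kernel) (by decide +kernel) (by decide +kernel),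
  fun _ => ⟨1, 2, fun x => x.1 + x.2.2.2 = 1, by decide, by decide, by unfold Cl; decide +kernel,
    by decide +kernel⟩⟩

lemma all (n : ℕ) (hn : 1 ≤ n) : Ex n False := by
  have w : ∀ {n}, Ex n True → Ex n False := fun ⟨G, ι, a, b, c, f, h1, h2, _⟩ =>
    ⟨G, ι, a, b, c, f, h1, h2, False.elim⟩
  have a : ∀ k, Ex (4 + 2 * k) True ∧ Ex (7 + 2 * k) True := fun k => by
    induction k with
    | zero => exact ⟨e4, e7⟩
    | succ k ih => exact ⟨ih.1.step, ih.2.step⟩
  obtain rfl | rfl | rfl | rfl | ⟨k, rfl⟩ | ⟨k, rfl⟩ : n = 1 ∨ n = 2 ∨ n = 3 ∨ n = 5 ∨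
      (∃ k, n = 4 + 2 * k) ∨ ∃ k, n = 7 + 2 * k := by
    rcases Nat.even_or_odd' n with ⟨k, rfl | rfl⟩
    · by_cases h : k ≤ 1
      · omega
      · exact Or.inr (Or.inr (Or.inr (Or.inr (Or.inl ⟨k - 2, by omega⟩))))
    · by_cases h : k ≤ 2
      · omega
      · exact Or.inr (Or.inr (Or.inr (Or.inr (Or.inr ⟨k - 3, by omega⟩))))
  · exact ⟨ZMod 1, _, _, inferInstance, inferInstance, id, rfl,
      good (by decide) (by decide) (by decide), False.elim⟩
  · exact ⟨ZMod 2, _, _, inferInstance, inferInstance, id, rfl,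
      good (by decide) (by decide) (by decide), False.elim⟩
  · exact ⟨ZMod 3, _, _, inferInstance, inferInstance, id, rfl,
      good (by decide) (by decide) (by decide +kernel), False.elim⟩
  · exact ⟨ZMod 5, _, _, inferInstance, inferInstance, id, rfl,
      good (by decide) (by decide +kernel) (by decide +kernel), False.elim⟩
  exacts [w (a k).1, w (a k).2]

theorem result (n : ℕ) (hn : 1 ≤ n) : ∃ (d : ℕ) (v : Fin n → Fin d → ℤ)
    (L : Fin n → AddSubgroup (Fin d → ℤ)), 1 ≤ d ∧ IsTiling v L ∧ ¬ Splits v L := by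
  obtain ⟨G, ι, _, _, _, f, h1, g1, g2, g3⟩ := (all n hn).imp fun G h => h.imp fun ι h =>
    h.imp fun _ h => h.imp fun _ h => h.imp fun _ h => h.imp fun f h => And.intro h.1 h.2.1
  obtain ⟨d, p, hp⟩ := Module.Finite.exists_fin' ℤ G
  set q : (Fin (d + 1) → ℤ) →+ G :=
    (p.comp (LinearMap.funLeft ℤ ℤ (Fin.succ (n := d)))).toAddMonoidHom with hq
  have hq : Surjective q :=
    hp.comp (LinearMap.funLeft_surjective_of_injective ℤ ℤ _ (Fin.succ_injective d))
  set e := (Fintype.equivFinOfCardEq h1).symm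
  choose v hv using fun i => (g1.comp hq) (e i)
  let M : Fin n → AddSubgroup G := fun i =>
    { carrier := {x | f (x + q (v i)) = e i}
      zero_mem' := by simpa using hv i
      add_mem' := fun {x y} a b => by
        have := g2 (e i) _ _ _ a (hv i) b
        show f _ = _
        rw [← this]; congr 1; abel
      neg_mem' := fun {x} a => by
        have := g2 (e i) _ _ _ (hv i) a (hv i)
        show f _ = _
        rw [← this]; congr 1; abel }
  have t : ∀ i x, x ∈ tr (v i) ((M i).comap q) ↔ f (q x) = e i := fun i x => by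
    show f (q (x - v i) + q (v i)) = e i ↔ _
    rw [map_sub, sub_add_cancel]
  refine ⟨d + 1, v, fun i => (M i).comap q, by omega, ⟨fun i => ⟨?_⟩, fun i j ij => ?_, ?_⟩, ?_⟩
  · rw [AddSubgroup.index_comap_of_surjective _ hq]; exact AddSubgroup.index_ne_zero_of_finite
  · exact disjoint_left.2 fun x a b => ij (e.injective (((t i x).1 a).symm.trans ((t j x).1 b)))
  · exact eq_univ_of_forall fun x => mem_iUnion.2 ⟨e.symm (f (q x)), (t _ x).2 (by simp)⟩
  · rintro ⟨k, b, k2, sb, ⟨i, j, ij, bij⟩, h⟩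
    obtain ⟨w, N, -, h⟩ := h (b i)
    have m : ∀ x, x - w ∈ N ↔ b (e.symm (f (q x))) = b i := fun x => by
      have := Set.ext_iff.1 h x
      simp only [mem_iUnion, t, mem_ofPred_eq, exists_prop] at this
      refine this.symm.trans ⟨fun ⟨a, a1, a2⟩ => by rw [a2, e.symm_apply_apply, a1], fun a =>
        ⟨_, a, by simp⟩⟩
    rcases g3 {a | b (e.symm a) = b i} (fun x y z => by
      obtain ⟨x, rfl⟩ := hq x
      obtain ⟨y, rfl⟩ := hq y
      obtain ⟨z, rfl⟩ := hq z
      simp only [mem_ofPred_eq, ← map_sub, ← map_add, ← m]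
      intro a b c
      convert N.add_mem (N.sub_mem a b) c using 1; abel) with u | u
    · have : Nontrivial (Fin k) := Fin.nontrivial_iff_two_le.2 k2
      obtain ⟨c, hc⟩ := exists_ne (b i)
      obtain ⟨a, rfl⟩ := sb c
      exact hc (by simpa using eq_univ_iff_forall.1 u (e a))
    · exact ij (e.injective (u (by simp) (by simp [bij])))

end Pool.Agent.Results.MP_f7d7fe_co.All
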